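import Pool.Agent.X112.HP.Stm

/-! Bounded integer coefficients (Cramer's rule). -/

set_option autoImplicit false
set_option linter.unusedSectionVars false

open Finset Matrix

namespace Pool.Agent.X333.HP

open Pool.Agent.X112.HP

variable {ι κ : Type} [Fintype ι] [Fintype κ] [DecidableEq ι] [DecidableEq κ]

theorem exists_comb (g : ι → κ → ℤ) (hg : AddSubgroup.closure (Set.range g) = ⊤) (x : κ → ℤ) :
    ∃ b : ι → ℤ, ∑ i, b i • g i = x := by
  have h1 : x ∈ Submodule.span ℤ (Set.range g) := by
    have h2 : x ∈ AddSubgroup.closure (Set.range g) := by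
      rw [hg]
      exact AddSubgroup.mem_top x
    rw [← Submodule.span_int_eq_addSubgroupClosure] at h2
    exact h2
  exact (Submodule.mem_span_range_iff_exists_fun ℤ).1 h1

theorem exists_tau (g : ι → κ → ℤ) (hg : AddSubgroup.closure (Set.range g) = ⊤) :
    ∃ τ : κ → ι, Function.Injective τ ∧ (Matrix.of fun a l => g (τ a) l : Matrix κ κ ℤ).det ≠ 0 := by
  classical
  let v : ι → κ → ℚ := fun i l => (g i l : ℚ)
  have hspan : Submodule.span ℚ (Set.range v) = ⊤ := by
    rw [eq_top_iff]
    rintro x -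
    have h1 : ∀ l, (Pi.single l (1 : ℚ) : κ → ℚ) ∈ Submodule.span ℚ (Set.range v) := by
      intro l
      obtain ⟨b, hb⟩ := exists_comb g hg (Pi.single l 1)
      refine (Submodule.mem_span_range_iff_exists_fun ℚ).2 ⟨fun i => (b i : ℚ), ?_⟩
      funext m
      have h2 := congrFun hb m
      rw [Finset.sum_apply] at h2 ⊢
      simp only [Pi.smul_apply, smul_eq_mul, v] at h2 ⊢
      have h3 : ((∑ i, b i * g i m : ℤ) : ℚ) = ((Pi.single l (1 : ℤ) : κ → ℤ) m : ℚ) := by
        rw [h2]
      rw [Int.cast_sum] at h3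
      simp only [Int.cast_mul] at h3
      rw [h3]
      by_cases hlm : m = l
      · subst hlm
        simp
      · simp [hlm]
    have h2 : x = ∑ l, x l • (Pi.single l (1 : ℚ) : κ → ℚ) := by
      funext m
      rw [Finset.sum_apply, Finset.sum_eq_single m]
      · simp
      · intro l _ hl
        simp [hl.symm]
      · simp
    rw [h2]
    exact Submodule.sum_mem _ fun l _ => Submodule.smul_mem _ _ (h1 l)
  obtain ⟨κ', a, ha, hsp, hli⟩ := exists_linearIndependent' ℚ v
  have hfin : Finite κ' := Finite.of_injective a ha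
  have _ : Fintype κ' := Fintype.ofFinite κ'
  let B := Module.Basis.mk hli (by rw [hsp, hspan])
  have hcard : Fintype.card κ = Fintype.card κ' := by
    rw [← Module.finrank_fintype_fun_eq_card ℚ (η := κ), Module.finrank_eq_card_basis B]
  let e : κ ≃ κ' := Fintype.equivOfCardEq hcard
  refine ⟨a ∘ e, ha.comp e.injective, ?_⟩
  have hli2 : LinearIndependent ℚ ((v ∘ a) ∘ e) := hli.comp e e.injective
  have h3 : IsUnit (Matrix.of fun b l => v (a (e b)) l : Matrix κ κ ℚ) :=
    Matrix.linearIndependent_rows_iff_isUnit.1 hli2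
  have h4 := (Matrix.isUnit_iff_isUnit_det _).1 h3
  intro h0
  apply h4.ne_zero
  have h5 : (Matrix.of fun b l => v (a (e b)) l : Matrix κ κ ℚ) =
      (Int.castRingHom ℚ).mapMatrix (Matrix.of fun b l => g (a (e b)) l) := by
    ext b l
    rfl
  rw [h5, ← RingHom.map_det]
  have h6 : (Matrix.of fun b l => g (a (e b)) l : Matrix κ κ ℤ).det = 0 := h0
  rw [h6, map_zero]

theorem det_bound (A : Matrix κ κ ℤ) (H : ℕ) (hA : ∀ i j, |A i j| ≤ (H : ℤ)) :
    |A.det| ≤ ((Fintype.card κ).factorial * H ^ Fintype.card κ : ℕ) := by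
  have h1 := Matrix.det_le (A := A) (abv := AbsoluteValue.abs) (x := (H : ℤ)) hA
  rw [nsmul_eq_mul] at h1
  push_cast
  exact h1

theorem t_BND : S_BND := by
  intro ι κ _ _ _ _ g H hH hg k
  classical
  obtain ⟨τ, hτ, hD⟩ := exists_tau g hg
  obtain ⟨b0, hb0⟩ := exists_comb g hg (Pi.single k 1)
  set G : Matrix κ κ ℤ := Matrix.of fun a l => g (τ a) l with hG
  set D := G.det with hDdef
  set M := Fintype.card κ with hM
  set N := Fintype.card ι with hNdef
  set B : ℕ := M.factorial * (H + 1) ^ M with hB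
  have hGle : ∀ i j, |G i j| ≤ ((H + 1 : ℕ) : ℤ) := by
    intro i j
    have := hH (τ i) j
    push_cast
    exact this.trans (by omega)
  have hDB : |D| ≤ (B : ℤ) := det_bound G (H + 1) hGle
  have hadj : ∀ i j, |G.adjugate i j| ≤ (B : ℤ) := by
    intro i j
    rw [Matrix.adjugate_apply]
    refine det_bound _ (H + 1) fun a l => ?_
    rw [Matrix.updateRow_apply]
    split_ifs with h
    · by_cases hil : l = i
      · subst hil
        simp
      · rw [Pi.single_eq_of_ne hil]
        simp
        positivity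
    · exact hGle a l
  -- remainders
  let r : ι → ℤ := fun i => b0 i % D
  let q : ι → ℤ := fun i => b0 i / D
  have hr : ∀ i, 0 ≤ r i ∧ r i < |D| := fun i =>
    ⟨Int.emod_nonneg _ hD, Int.emod_lt_abs _ hD⟩
  have hqr : ∀ i, b0 i = r i + D * q i := fun i => (Int.emod_add_mul_ediv (b0 i) D).symm
  let c : κ → ℤ := fun a => ∑ i, q i * (g i ᵥ* G.adjugate) a
  have hgD : ∀ i, (g i ᵥ* G.adjugate) ᵥ* G = D • g i := by
    intro i
    rw [Matrix.vecMul_vecMul, Matrix.adjugate_mul, Matrix.vecMul_smul, Matrix.vecMul_one]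
  have hcG : c ᵥ* G = fun l => ∑ i, q i * (D * g i l) := by
    funext l
    have h1 : ∀ i, ∑ a, (g i ᵥ* G.adjugate) a * G a l = D * g i l := by
      intro i
      have h2 := congrFun (hgD i) l
      rw [Matrix.vecMul, dotProduct] at h2
      exact h2
    rw [Matrix.vecMul, dotProduct]
    simp only [c, Finset.sum_mul]
    rw [Finset.sum_comm]
    refine Finset.sum_congr rfl fun i _ => ?_
    rw [← h1 i, Finset.mul_sum]
    exact Finset.sum_congr rfl fun a _ => by ring
  obtain ⟨v, hv⟩ : ∃ v : κ → ℤ, ∀ l, v l = (Pi.single k (1 : ℤ) : κ → ℤ) l - ∑ i, r i * g i l :=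
    ⟨_, fun _ => rfl⟩
  have hcv : c ᵥ* G = v := by
    rw [hcG]
    funext l
    have h1 := congrFun hb0 l
    rw [Finset.sum_apply] at h1
    simp only [Pi.smul_apply, smul_eq_mul] at h1
    rw [hv, ← h1, ← Finset.sum_sub_distrib]
    refine Finset.sum_congr rfl fun i _ => ?_
    rw [hqr i]
    ring
  have hDc : ∀ a, D * c a = ∑ l, v l * G.adjugate l a := by
    intro a
    have h1 : (c ᵥ* G) ᵥ* G.adjugate = D • c := by
      rw [Matrix.vecMul_vecMul, Matrix.mul_adjugate, Matrix.vecMul_smul, Matrix.vecMul_one]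
    rw [hcv] at h1
    have h2 := congrFun h1 a
    rw [Matrix.vecMul, dotProduct] at h2
    exact h2.symm
  have hvle : ∀ l, |v l| ≤ 1 + N * (B * H) := by
    intro l
    rw [hv]
    refine (abs_sub _ _).trans (add_le_add ?_ ?_)
    · by_cases hkl : l = k
      · subst hkl
        simp
      · rw [Pi.single_eq_of_ne hkl]
        simp
    · refine (Finset.abs_sum_le_sum_abs _ _).trans ?_
      have h1 : ∀ i ∈ (univ : Finset ι), |r i * g i l| ≤ (B * H : ℤ) := by
        intro i _
        rw [abs_mul]
        refine mul_le_mul ?_ (hH i l) (abs_nonneg _) (by positivity)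
        rw [abs_of_nonneg (hr i).1]
        exact (hr i).2.le.trans hDB
      refine (Finset.sum_le_card_nsmul _ _ _ h1).trans ?_
      rw [nsmul_eq_mul, Finset.card_univ]
  have hcle : ∀ a, |c a| ≤ M * ((1 + N * (B * H)) * B) := by
    intro a
    have h1 : |c a| ≤ |D * c a| := by
      rw [abs_mul]
      have h2 : 1 ≤ |D| := Int.one_le_abs hD
      nlinarith [abs_nonneg (c a)]
    refine h1.trans ?_
    rw [hDc]
    refine (Finset.abs_sum_le_sum_abs _ _).trans ?_
    have h2 : ∀ l ∈ (univ : Finset κ), |v l * G.adjugate l a| ≤ ((1 + N * (B * H)) * B : ℤ) := by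
      intro l _
      rw [abs_mul]
      exact mul_le_mul (hvle l) (hadj l a) (abs_nonneg _) (by positivity)
    refine (Finset.sum_le_card_nsmul _ _ _ h2).trans ?_
    rw [nsmul_eq_mul, Finset.card_univ]
  refine ⟨fun i => r i + ∑ a, if τ a = i then c a else 0, ?_, fun i => ?_⟩
  · funext l
    rw [Finset.sum_apply]
    simp only [Pi.smul_apply, smul_eq_mul, add_mul, Finset.sum_add_distrib]
    have h1 : ∑ i, (∑ a, if τ a = i then c a else 0) * g i l = ∑ a, c a * g (τ a) l := by
      simp only [Finset.sum_mul]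
      rw [Finset.sum_comm]
      refine Finset.sum_congr rfl fun a _ => ?_
      rw [Finset.sum_eq_single (τ a)]
      · rw [if_pos rfl]
      · intro i _ hi
        rw [if_neg hi.symm, zero_mul]
      · simp
    have h2 : ∑ a, c a * g (τ a) l = v l := by
      have h3 := congrFun hcv l
      rw [Matrix.vecMul, dotProduct] at h3
      exact h3
    rw [h1, h2, hv]
    ring
  · have h1 : |∑ a, if τ a = i then c a else 0| ≤ M * ((1 + N * (B * H)) * B) := by
      by_cases hi : ∃ a, τ a = i
      · obtain ⟨a, rfl⟩ := hi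
        rw [Finset.sum_eq_single a]
        · rw [if_pos rfl]
          exact hcle a
        · intro b _ hb
          rw [if_neg fun h => hb (hτ h)]
        · simp
      · push Not at hi
        rw [Finset.sum_eq_zero fun a _ => if_neg (hi a), abs_zero]
        positivity
    have h2 : |r i| ≤ (B : ℤ) := by
      rw [abs_of_nonneg (hr i).1]
      exact (hr i).2.le.trans hDB
    refine (abs_add_le _ _).trans ((add_le_add h2 h1).trans ?_)
    have h3 : (Bd (Fintype.card ι) (Fintype.card κ) H : ℤ) = (M + 1) * B * (1 + N * B * (H + 1)) := by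
      unfold Bd
      push_cast
      rw [hB]
      push_cast
      ring
    rw [h3]
    have hB0 : (0 : ℤ) ≤ B := by positivity
    have hM0 : (0 : ℤ) ≤ M := by positivity
    have hN0 : (0 : ℤ) ≤ N := by positivity
    have hH0 : (0 : ℤ) ≤ H := by positivity
    nlinarith [mul_nonneg (mul_nonneg hB0 hN0) (mul_nonneg hB0 (by linarith : (0 : ℤ) ≤ H + 1)),
      mul_nonneg (mul_nonneg hM0 hB0) (mul_nonneg hN0 hB0)]

end Pool.Agent.X333.HP
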